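import Mathlib
import Pool.Agent.N70.ES.MlFin

/-!
# Malle's conjecture for the wreath products `C₂ ≀ (A ≀ A_n)`, `A` any finite group

`H` is a finite group acting on itself by multiplication, and `G = C₂ ≀ H` acts on `H × {0, 1}`.
First part: `A` is ANY finite group (no realization of `A` is assumed), and `H = A ≀ A_n`. For almost
all natural numbers `n` (natural density 1) the group `G` exists and is transitive, and over every
number field `K` the number of isomorphism classes of `G`-extensions of `K` with discriminant of norm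
at most `B` is asymptotic to `c B`.

Second part (the first part is the case `W = 1`): let `α : B → W` be any surjective homomorphism of
finite groups. `TwPow α χ n` is the group of all `(x, ρ)` with `x` in the wreath product `B ≀ S_n`,
`ρ` in `W`, such that `α` maps all coordinates of `x` to `ρ` and the sign of the permutation of `x`
is `χ ρ`. For almost all `n` and all characters `χ : W → {1, -1}` such that the projection of
`H = TwPow α χ n` to `W` splits, the same asymptotic holds for `G` over all number fields `K` over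
which `W` is a Galois group.

The definitions `AltWreath`, `TwPow`, `Realizable`, `AlmostAllNumbers`, `TwSplit` are in the files
`Voc.lean`, `VocC.lean`, `VocQ.lean` of `Pool/Agent/N70/EP`, `Pool/Agent/N70/EO/VocE.lean` and
`Pool/Agent/N70/ES/VocW.lean`.
-/

set_option autoImplicit false

open Filter

namespace Pool.Agent.Results.MP_a3214d_nt.OrderTwoByAlternating

/-- `G ≤ S_d` is, up to a bijection `f` of `{1, ..., d}` with `H × {0, 1}`, the wreath product
`C₂ ≀ H`: it consists of all permutations `π` for which there is `h ∈ H` such that `π` maps the block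
`{x} × {0, 1}` to the block `{h x} × {0, 1}`, for all `x ∈ H`. -/
def IsC2Wreath (H : Type) [Group H] {d : ℕ} (G : Subgroup (Equiv.Perm (Fin d))) : Prop :=
  ∃ f : Fin d ≃ H × Bool, ∀ π : Equiv.Perm (Fin d), π ∈ G ↔ ∃ h : H, ∀ i, (f (π i)).1 = h * (f i).1

/-- The fields `L` between `K` and its algebraic closure, of degree `d` over `K`, whose Galois group,
acting on the embeddings, is `G` (up to numbering), and whose relative discriminant has norm at most
`B` (that is, `|d_L| ≤ B |d_K| ^ d`). -/
def Ext (K : Type) [Field K] [NumberField K] (d : ℕ) (G : Subgroup (Equiv.Perm (Fin d)))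
    (B : ℝ) : Set (IntermediateField K (AlgebraicClosure K)) :=
  {L | Module.finrank K L = d ∧
    (∃ e : (L →ₐ[K] AlgebraicClosure K) ≃ Fin d, ∀ π : Equiv.Perm (Fin d),
      π ∈ G ↔ ∃ σ : AlgebraicClosure K ≃ₐ[K] AlgebraicClosure K,
        ∀ φ : L →ₐ[K] AlgebraicClosure K, e (σ.toAlgHom.comp φ) = π (e φ)) ∧
    ∃ h : NumberField L,
      ((|@NumberField.discr L _ h| : ℤ) : ℝ) ≤ B * ((|NumberField.discr K| : ℤ) : ℝ) ^ d}

/-- `N(K, G; B)`: the number of these fields up to `K`-isomorphism. -/
noncomputable def N (K : Type) [Field K] [NumberField K] (d : ℕ)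
    (G : Subgroup (Equiv.Perm (Fin d))) (B : ℝ) : ℕ :=
  Nat.card (Quot fun L L' : Ext K d G B => Nonempty (L.1 ≃ₐ[K] L'.1))

/-- The conclusion of Malle's conjecture for `G`, over all number fields: there is `a > 0` such that
for every number field `K` there are `c > 0` and `b ≥ 1` with
`N(K, G; B) ~ c B ^ a (log B) ^ (b - 1)`. -/
def Malle (d : ℕ) (G : Subgroup (Equiv.Perm (Fin d))) : Prop :=
  ∃ a : ℝ, 0 < a ∧ ∀ (K : Type) [Field K] [NumberField K], ∃ (c : ℝ) (b : ℕ), 0 < c ∧ 1 ≤ b ∧
    Tendsto (fun B : ℝ => (N K d G B : ℝ) / (B ^ a * Real.log B ^ (b - 1))) atTop (nhds c)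

/-- The group `C₂ ≀ H` exists, and is transitive. -/
theorem exists_group (H : Type) [Group H] [Finite H] : ∃ (d : ℕ)
    (G : Subgroup (Equiv.Perm (Fin d))), d = 2 * Nat.card H ∧ IsC2Wreath H G ∧
      ∀ i j : Fin d, ∃ g ∈ G, g i = j := by
  have hcard : Nat.card (H × Bool) = 2 * Nat.card H := by
    rw [Nat.card_prod, mul_comm]
    simp
  let f : Fin (2 * Nat.card H) ≃ H × Bool := (Finite.equivFinOfCardEq hcard).symm
  let G : Subgroup (Equiv.Perm (Fin (2 * Nat.card H))) :=
    { carrier := {π | ∃ h : H, ∀ i, (f (π i)).1 = h * (f i).1}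
      one_mem' := ⟨1, fun i => by simp⟩
      mul_mem' := by
        rintro π ρ ⟨h, hh⟩ ⟨h', hh'⟩
        refine ⟨h * h', fun i => ?_⟩
        rw [Equiv.Perm.mul_apply, hh, hh', mul_assoc]
      inv_mem' := by
        rintro π ⟨h, hh⟩
        refine ⟨h⁻¹, fun i => ?_⟩
        have h1 := hh (π⁻¹ i)
        rw [show π (π⁻¹ i) = i from π.apply_symm_apply i] at h1
        rw [h1, inv_mul_cancel_left] }
  refine ⟨2 * Nat.card H, G, rfl, ⟨f, fun π => Iff.rfl⟩, fun i j => ?_⟩
  let t : Equiv.Perm (H × Bool) :=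
    (Equiv.mulLeft ((f j).1 * (f i).1⁻¹)).prodCongr (Equiv.swap (f i).2 (f j).2)
  refine ⟨f.trans (t.trans f.symm), ⟨(f j).1 * (f i).1⁻¹, fun x => ?_⟩, ?_⟩
  · simp [t]
  · change f.symm (t (f i)) = j
    rw [Equiv.symm_apply_eq]
    exact Prod.ext (by simp [t]) (by simp [t])

theorem of_data (K : Type) [Field K] [NumberField K] (H : Type) [Group H] [Finite H]
    (h2 : 2 ≤ Nat.card H) (U : Subgroup H) (hU : U.normalCore = ⊥)
    (hc : 8 * U.index * (U.index + 1) ≤ Nat.card H)
    (hne : (Pool.Agent.TH444.ML.Gal K (AlgebraicClosure K) H).Nonempty) (d : ℕ)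
    (G : Subgroup (Equiv.Perm (Fin d))) (hG : IsC2Wreath H G) : ∃ c : ℝ, 0 < c ∧
      Tendsto (fun B : ℝ => (N K d G B : ℝ) / B) atTop (nhds c) :=
  Pool.Agent.TH444.ML.asymp_iso Pool.Agent.TH444.ML.rest K H h2 U hU hc hne G hG

/-- The group `C₂ ≀ H` exists, and is transitive. -/
def Exists (H : Type) [Group H] : Prop := ∃ (d : ℕ) (G : Subgroup (Equiv.Perm (Fin d))),
  d = 2 * Nat.card H ∧ IsC2Wreath H G ∧ ∀ i j : Fin d, ∃ g ∈ G, g i = j

/-- Over `K` the asymptotic formula `N(K, G; B) ~ c B` holds for all subgroups of symmetric groups of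
the form `G = C₂ ≀ H`, `H` in its regular action. -/
def MalleOrderTwo (K : Type) [Field K] [NumberField K] (H : Type) [Group H] : Prop :=
  ∀ (d : ℕ) (G : Subgroup (Equiv.Perm (Fin d))), IsC2Wreath H G → ∃ c : ℝ, 0 < c ∧
    Tendsto (fun B : ℝ => (N K d G B : ℝ) / B) atTop (nhds c)

/-- The conclusion of Malle's conjecture for all subgroups of symmetric groups of the form
`G = C₂ ≀ H`. -/
def MalleAll (H : Type) [Group H] : Prop :=
  ∀ (d : ℕ) (G : Subgroup (Equiv.Perm (Fin d))), IsC2Wreath H G → Malle d G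

theorem malle_of {H : Type} [Group H]
    (h : ∀ (K : Type) [Field K] [NumberField K], MalleOrderTwo K H) : MalleAll H := by
  intro d G hG
  refine ⟨1, one_pos, fun K _ _ => ?_⟩
  obtain ⟨c, hc0, hlim⟩ := h K d G hG
  refine ⟨c, 1, hc0, le_rfl, ?_⟩
  simpa using hlim

end Pool.Agent.Results.MP_a3214d_nt.OrderTwoByAlternating

open Pool.Agent.N70.EP.Voc in
open Pool.Agent.N70.EO.Voc (AlmostAllNumbers) in
open Pool.Agent.N70.ES.Voc (TwSplit) in
open Pool.Agent.Results.MP_a3214d_nt.OrderTwoByAlternating in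
/-- Malle's conjecture for `C₂ ≀ (A ≀ A_n)` over all number fields, `A` any finite group, almost all
`n`, and for `C₂ ≀ TwPow α χ n`. -/
theorem Pool.Agent.Results.MP_a3214d_nt.OrderTwoByAlternating.result :
    (∀ (A : Type) [Group A] [Finite A], AlmostAllNumbers (fun n =>
      Exists (AltWreath A n) ∧ MalleAll (AltWreath A n) ∧
      ∀ (K : Type) [Field K] [NumberField K], MalleOrderTwo K (AltWreath A n))) ∧
    ∀ (W B : Type) [Group W] [Finite W] [Group B] [Finite B] (α : B →* W),
      Function.Surjective α → AlmostAllNumbers (fun n => ∀ χ : W →* ℤˣ, TwSplit α χ n →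
        Exists (TwPow α χ n) ∧ ∀ (K : Type) [Field K] [NumberField K], Realizable K W →
          MalleOrderTwo K (TwPow α χ n)) := by
  refine ⟨fun A _ _ => ?_, fun W B _ _ _ _ α hα => ?_⟩
  · refine Pool.Agent.N70.EO.aan_mono (Pool.Agent.N70.ES.alt_malle A) fun n hn => ?_
    obtain ⟨⟨hf, hc, ⟨U, hU, hi⟩⟩, hr⟩ := hn
    have key : ∀ (K : Type) [Field K] [NumberField K], MalleOrderTwo K (AltWreath A n) :=
      fun K _ _ d G hG => @of_data K _ _ (AltWreath A n) _ hf hc U hU hi (hr K) d G hG
    exact ⟨@exists_group (AltWreath A n) _ hf, malle_of key, key⟩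
  · refine Pool.Agent.N70.EO.aan_mono (Pool.Agent.N70.ES.tw_malle Pool.Agent.N70.ES.htd α hα)
      fun n hn χ hs => ?_
    obtain ⟨⟨hf, hc, ⟨U, hU, hi⟩⟩, hr⟩ := hn χ hs
    exact ⟨@exists_group (TwPow α χ n) _ hf, fun K _ _ hK d G hG =>
      @of_data K _ _ (TwPow α χ n) _ hf hc U hU hi (hr K hK) d G hG⟩
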