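import Mathlib
import Pool.Agent.N70.PP.MlT

/-!
# Malle's conjecture for the wreath products `C₂ ≀ S_n(A)`, `A : B → W` any surjection

`H` is a finite group acting on itself by multiplication, and `G = C₂ ≀ H` acts on `H × {0, 1}`.
Let `A : B → W` be ANY surjective homomorphism of finite groups (split or not, any kernel), and let
`H = S_n(A) = SymEP A n` be the group of all `(x, w)` with `x` in the wreath product `B ≀ S_n`, `w`
in `W`, such that `A` maps all coordinates of `x` to `w`; it is an extension of `W` by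
`(ker A) ≀ S_n`.

1. For all `n ≥ ((3 |ker A| + 2)!)^3`, `n ≥ |B|^2 + 10`: Malle's conjecture holds for `G` over all
   number fields over which some subgroup `D` of `B` with `A(D) = W` is a Galois group.
2. For all multiples `n ≥ ((3 |B| + 2)!)^3` of `|W|` it holds over all number fields over which `W`
   is a Galois group.

The definition `Realizable` is in `Pool/Agent/N70/EP/VocQ.lean`, `SymEP` in
`Pool/Agent/H391R2/T4/Sym.lean`.
-/

set_option autoImplicit false

open Filter
open Pool.Agent.N70.EP.Voc (Realizable)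
open Pool.Agent.H391R2.T4 (SymEP)

namespace Pool.Agent.Results.MP_a3214d_nt.OrderTwoByFibrePowers

/-- `G ≤ S_d` is, up to a bijection `f` of `{1, ..., d}` with `H × {0, 1}`, the wreath product
`C₂ ≀ H`: it consists of all permutations `π` for which there is `h ∈ H` such that `π` maps the block
`{x} × {0, 1}` to the block `{h x} × {0, 1}`, for all `x ∈ H`. -/
def IsC2Wreath (H : Type) [Group H] {d : ℕ} (G : Subgroup (Equiv.Perm (Fin d))) : Prop :=
  ∃ f : Fin d ≃ H × Bool, ∀ π : Equiv.Perm (Fin d), π ∈ G ↔ ∃ h : H, ∀ i, (f (π i)).1 = h * (f i).1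

/-- The fields `L` between `K` and its algebraic closure, of degree `d` over `K`, whose Galois group,
acting on the embeddings, is `G` (up to numbering), and whose relative discriminant has norm at most
`B` (that is, `|d_L| ≤ B |d_K| ^ d`). -/
def Ext (K : Type) [Field K] [NumberField K] (d : ℕ) (G : Subgroup (Equiv.Perm (Fin d)))
    (B : ℝ) : Set (IntermediateField K (AlgebraicClosure K)) :=
  {L | Module.finrank K L = d ∧
    (∃ e : (L →ₐ[K] AlgebraicClosure K) ≃ Fin d, ∀ π : Equiv.Perm (Fin d),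
      π ∈ G ↔ ∃ σ : AlgebraicClosure K ≃ₐ[K] AlgebraicClosure K,
        ∀ φ : L →ₐ[K] AlgebraicClosure K, e (σ.toAlgHom.comp φ) = π (e φ)) ∧
    ∃ h : NumberField L,
      ((|@NumberField.discr L _ h| : ℤ) : ℝ) ≤ B * ((|NumberField.discr K| : ℤ) : ℝ) ^ d}

/-- `N(K, G; B)`: the number of these fields up to `K`-isomorphism. -/
noncomputable def N (K : Type) [Field K] [NumberField K] (d : ℕ)
    (G : Subgroup (Equiv.Perm (Fin d))) (B : ℝ) : ℕ :=
  Nat.card (Quot fun L L' : Ext K d G B => Nonempty (L.1 ≃ₐ[K] L'.1))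

/-- The conclusion of Malle's conjecture for `G`, over all number fields: there is `a > 0` such that
for every number field `K` there are `c > 0` and `b ≥ 1` with
`N(K, G; B) ~ c B ^ a (log B) ^ (b - 1)`. -/
def Malle (d : ℕ) (G : Subgroup (Equiv.Perm (Fin d))) : Prop :=
  ∃ a : ℝ, 0 < a ∧ ∀ (K : Type) [Field K] [NumberField K], ∃ (c : ℝ) (b : ℕ), 0 < c ∧ 1 ≤ b ∧
    Tendsto (fun B : ℝ => (N K d G B : ℝ) / (B ^ a * Real.log B ^ (b - 1))) atTop (nhds c)

/-- The group `C₂ ≀ H` exists, and is transitive. -/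
theorem exists_group (H : Type) [Group H] [Finite H] : ∃ (d : ℕ)
    (G : Subgroup (Equiv.Perm (Fin d))), d = 2 * Nat.card H ∧ IsC2Wreath H G ∧
      ∀ i j : Fin d, ∃ g ∈ G, g i = j := by
  have hcard : Nat.card (H × Bool) = 2 * Nat.card H := by
    rw [Nat.card_prod, mul_comm]
    simp
  let f : Fin (2 * Nat.card H) ≃ H × Bool := (Finite.equivFinOfCardEq hcard).symm
  let G : Subgroup (Equiv.Perm (Fin (2 * Nat.card H))) :=
    { carrier := {π | ∃ h : H, ∀ i, (f (π i)).1 = h * (f i).1}
      one_mem' := ⟨1, fun i => by simp⟩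
      mul_mem' := by
        rintro π ρ ⟨h, hh⟩ ⟨h', hh'⟩
        refine ⟨h * h', fun i => ?_⟩
        rw [Equiv.Perm.mul_apply, hh, hh', mul_assoc]
      inv_mem' := by
        rintro π ⟨h, hh⟩
        refine ⟨h⁻¹, fun i => ?_⟩
        have h1 := hh (π⁻¹ i)
        rw [show π (π⁻¹ i) = i from π.apply_symm_apply i] at h1
        rw [h1, inv_mul_cancel_left] }
  refine ⟨2 * Nat.card H, G, rfl, ⟨f, fun π => Iff.rfl⟩, fun i j => ?_⟩
  let t : Equiv.Perm (H × Bool) :=
    (Equiv.mulLeft ((f j).1 * (f i).1⁻¹)).prodCongr (Equiv.swap (f i).2 (f j).2)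
  refine ⟨f.trans (t.trans f.symm), ⟨(f j).1 * (f i).1⁻¹, fun x => ?_⟩, ?_⟩
  · simp [t]
  · change f.symm (t (f i)) = j
    rw [Equiv.symm_apply_eq]
    exact Prod.ext (by simp [t]) (by simp [t])

theorem of_data (K : Type) [Field K] [NumberField K] (H : Type) [Group H] [Finite H]
    (h2 : 2 ≤ Nat.card H) (U : Subgroup H) (hU : U.normalCore = ⊥)
    (hc : 8 * U.index * (U.index + 1) ≤ Nat.card H)
    (hne : (Pool.Agent.TH444.ML.Gal K (AlgebraicClosure K) H).Nonempty) (d : ℕ)
    (G : Subgroup (Equiv.Perm (Fin d))) (hG : IsC2Wreath H G) : ∃ c : ℝ, 0 < c ∧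
      Tendsto (fun B : ℝ => (N K d G B : ℝ) / B) atTop (nhds c) :=
  Pool.Agent.TH444.ML.asymp_iso Pool.Agent.TH444.ML.rest K H h2 U hU hc hne G hG

/-- The group `C₂ ≀ H` exists, and is transitive. -/
def Exists (H : Type) [Group H] : Prop := ∃ (d : ℕ) (G : Subgroup (Equiv.Perm (Fin d))),
  d = 2 * Nat.card H ∧ IsC2Wreath H G ∧ ∀ i j : Fin d, ∃ g ∈ G, g i = j

/-- Over `K` the asymptotic formula `N(K, G; B) ~ c B` holds for all subgroups of symmetric groups of
the form `G = C₂ ≀ H`, `H` in its regular action. -/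
def MalleOrderTwo (K : Type) [Field K] [NumberField K] (H : Type) [Group H] : Prop :=
  ∀ (d : ℕ) (G : Subgroup (Equiv.Perm (Fin d))), IsC2Wreath H G → ∃ c : ℝ, 0 < c ∧
    Tendsto (fun B : ℝ => (N K d G B : ℝ) / B) atTop (nhds c)

/-- The conclusion of Malle's conjecture for all subgroups of symmetric groups of the form
`G = C₂ ≀ H`. -/
def MalleAll (H : Type) [Group H] : Prop :=
  ∀ (d : ℕ) (G : Subgroup (Equiv.Perm (Fin d))), IsC2Wreath H G → Malle d G

theorem malle_of {H : Type} [Group H]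
    (h : ∀ (K : Type) [Field K] [NumberField K], MalleOrderTwo K H) : MalleAll H := by
  intro d G hG
  refine ⟨1, one_pos, fun K _ _ => ?_⟩
  obtain ⟨c, hc0, hlim⟩ := h K d G hG
  refine ⟨c, 1, hc0, le_rfl, ?_⟩
  simpa using hlim

/-- The theorem for the group `H = S_n(A)` and the group `D` (a subgroup of `B`, or `W`). -/
def Conclusion (D H : Type) [Group D] [Group H] : Prop :=
  Exists H ∧
  (∀ (K : Type) [Field K] [NumberField K], Realizable K D → MalleOrderTwo K H) ∧
  ((∀ (K : Type) [Field K] [NumberField K], Realizable K D) → MalleAll H)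

theorem conclusion_of {D H : Type} [Group D] [Group H] (h : Pool.Agent.N70.ES.MlData H ∧
    ∀ (K : Type) [Field K] [NumberField K], Realizable K D →
      (Pool.Agent.TH444.ML.Gal K (AlgebraicClosure K) H).Nonempty) : Conclusion D H := by
  obtain ⟨⟨hf, hc, ⟨U, hU, hi⟩⟩, hr⟩ := h
  have key : ∀ (K : Type) [Field K] [NumberField K], Realizable K D → MalleOrderTwo K H :=
    fun K _ _ hK d G hG => @of_data K _ _ H _ hf hc U hU hi (hr K hK) d G hG
  exact ⟨@exists_group H _ hf, key, fun hD => malle_of fun K _ _ => key K (hD K)⟩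

/-- The first theorem for the number `n`. -/
def First {B W : Type} [Group B] [Group W] (A : B →* W) (n : ℕ) : Prop :=
  ((3 * Nat.card A.ker + 2).factorial) ^ 3 ≤ n → Nat.card B ^ 2 + 10 ≤ n →
    ∀ D : Subgroup B, (∀ w : W, ∃ d ∈ D, A d = w) → Conclusion D (SymEP A n)

/-- The second theorem for the number `n`. -/
def Second {B W : Type} [Group B] [Group W] (A : B →* W) (n : ℕ) : Prop :=
  ((3 * Nat.card B + 2).factorial) ^ 3 ≤ n → Nat.card W ∣ n → Conclusion W (SymEP A n)

theorem result (W B : Type) [Group W] [Finite W] [Group B] [Finite B] (A : B →* W)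
    (hA : Function.Surjective A) (n : ℕ) : First A n ∧ Second A n :=
  ⟨fun hn hn2 D hD => conclusion_of (Pool.Agent.N70.PP.malle_D A n hn hn2 D hD),
    fun hn hd => conclusion_of (Pool.Agent.N70.PP.malle_W A hA n hn hd)⟩

end Pool.Agent.Results.MP_a3214d_nt.OrderTwoByFibrePowers
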