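import Pool.Agent.N783.CF.WRFinal

/-!
# Lower bounds in Malle's conjecture for wreath products `S_n ≀ H`, `n` odd

Let `K` be any number field, `H` a permutation group of degree `m` which is the Galois group of some
extension of degree `m` of `K`, and `n ≥ 3` odd. The number of the extensions `L` of degree `m n` of `K`
inside an algebraic closure with absolute discriminant at most `X` and with the full wreath product
`S_n ≀ H` (of degree `m n`) as Galois group is at least `c X ^ (1 / 2 + 1 / n)` for large `X`. (The
conjectured order is `X`, as the elements of index one are the transpositions, which are conjugate.)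

In particular `S_n ≀ H` occurs over `K` with these many fields; this can be iterated: all groups
`S_{n_1} ≀ (S_{n_2} ≀ ( ... ≀ S_{n_r}))` with odd `n_i` occur over every number field.

(The absolute value of the discriminant of `L` is `|disc K| ^ (m n)` times the norm of the relative
discriminant, and an isomorphism class of extensions of `K` consists of at most `m n` subfields of the
algebraic closure, so the same holds for the number `N(K, G; X)` of the problem.)

Known before: for `m = 1`, `K = ℚ` this (even with exponent `1 / 2 + 1 / (n - 1)`) is a theorem of Bhargava,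
Shankar and Wang (squarefree values of polynomial discriminants I, II), for `m = 1` and general `K` it is `MP_af4c59_nt.SymmetricGroupOddDegree`; for `n = 3, 5` the order of magnitude `X` should be known
(Datskovsky-Wright, Bhargava-Shankar-Wang over a fixed intermediate field; Alberts, Lemke Oliver, Wang and
Wood for asymptotic results for `n = 3`). For `n ≥ 7` and `m ≥ 2` I know only of the exponent
`1 / 2 + 1 / n ^ 2` for all extensions of degree `n` of a fixed field `M` (Ellenberg-Venkatesh).

The proof. Let `M` be an extension of `K` with group `H`. Project CF gives `c X ^ (1 / 2 + 1 / n)` extensions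
`L = M(θ)`, `f(θ) = 0`, of degree `n` of `M`, with squarefree discriminant of `f` and Galois group `S_n` over
`M`. For one prime number `q` which splits completely in `M` we may prescribe `f` modulo all primes of `M`
over `q`: `f` is `x h(x)` with `h` irreducible modulo one of these primes, `𝔮`, and irreducible modulo the
others. Let `s` be the `n`-th power of a Frobenius element at a prime over the image of `𝔮` under the
embedding `φ₀` of `M`. Then `s` is trivial on all embeddings of `M`, trivial on the roots of `φ f` for
`φ ≠ φ₀`, and a cycle of length `n - 1` on the roots of `φ₀ f`. The conjugates of `s` under the elements which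
fix `φ₀` generate a normal subgroup of `S_n` which contains an odd cycle of length `n - 1`, so it is `S_n`;
hence the Galois group contains the base group `S_n ^ m` of the wreath product.

Project WR: helper783 with parts by helpers 58, 288, 441, 540, 545, 574, 710, 749, 914, 928; project CF
(counting): helper783 with helpers 27, 78, 93, 130, 169, 195, 227, 300, 327, 492, 513, 526, 570, 602, 654,
692, 693, 793, 914, see
`MP_af4c59_nt.SymmetricGroupOddDegree`; project PF: see `MP_1d384c_nt.JacobiansNumberFields`.
-/

set_option autoImplicit false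
set_option linter.all false

namespace Pool.Agent.Results.MP_a3214d_nt.WreathSymmetricLowerBound

/-- The Galois group of `K` acts on the set of embeddings of `L`, numbered by `ι` in a suitable way, as
the permutation group `G` of `ι`. -/
def HasGroup {K : Type} [Field K] (L : IntermediateField K (AlgebraicClosure K)) {ι : Type}
    (G : Subgroup (Equiv.Perm ι)) : Prop :=
  ∃ e : (L →ₐ[K] AlgebraicClosure K) ≃ ι, ∀ τ : Equiv.Perm ι, τ ∈ G ↔
    ∃ σ : AlgebraicClosure K ≃ₐ[K] AlgebraicClosure K, ∀ φ : L →ₐ[K] AlgebraicClosure K,
      e (σ.toAlgHom.comp φ) = τ (e φ)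

/-- The extensions of degree `N` of `K` inside the algebraic closure of `K` with Galois group `G` whose
absolute discriminant has absolute value at most `X`. -/
def FieldsWithGroup (K : Type) [Field K] [NumberField K] (N : ℕ) {ι : Type}
    (G : Subgroup (Equiv.Perm ι)) (X : ℝ) : Set (IntermediateField K (AlgebraicClosure K)) :=
  {L | Module.finrank K L = N ∧
    (∃ h : NumberField L, ((|@NumberField.discr L _ h| : ℤ) : ℝ) ≤ X) ∧ HasGroup L G}

/-- The wreath product of the symmetric group of degree `n` with the permutation group `H` of degree `m`: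
all permutations of `m` blocks of length `n` which permute the blocks by an element of `H`. -/
def Wreath {m : ℕ} (n : ℕ) (H : Subgroup (Equiv.Perm (Fin m))) :
    Subgroup (Equiv.Perm (Fin m × Fin n)) where
  carrier := {τ | ∃ h ∈ H, ∀ x, (τ x).1 = h x.1}
  mul_mem' := by
    rintro a b ⟨h, hh, h1⟩ ⟨k, hk, h2⟩
    exact ⟨h * k, H.mul_mem hh hk, fun x => by
      rw [Equiv.Perm.mul_apply, Equiv.Perm.mul_apply, h1, h2]⟩
  one_mem' := ⟨1, H.one_mem, fun x => rfl⟩
  inv_mem' := by
    rintro a ⟨h, hh, h1⟩
    refine ⟨h⁻¹, H.inv_mem hh, fun x => ?_⟩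
    have e1 : a (a⁻¹ x) = x := Equiv.apply_symm_apply a x
    have e2 : h⁻¹ (h (a⁻¹ x).1) = (a⁻¹ x).1 := Equiv.symm_apply_apply h _
    have e3 := h1 (a⁻¹ x)
    rw [e1] at e3
    rw [e3, e2]

/-- Let `H` be a permutation group of degree `m` which is the Galois group of some finite extension of the
number field `K`. For every odd `n ≥ 3` the number of the extensions of degree `m n` of `K` with Galois
group `S_n ≀ H` and absolute discriminant at most `X` is finite and at least
`c X ^ (1 / 2 + 1 / n)`. -/
theorem result : ∀ (K : Type) [Field K] [NumberField K] (m : ℕ) (H : Subgroup (Equiv.Perm (Fin m))),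
    (∃ M : IntermediateField K (AlgebraicClosure K), FiniteDimensional K M ∧ HasGroup M H) →
    ∀ n : ℕ, 3 ≤ n → Odd n → ∃ c : ℝ, 0 < c ∧ ∃ X₀ : ℝ, ∀ X : ℝ, X₀ ≤ X →
      (FieldsWithGroup K (m * n) (Wreath n H) X).Finite ∧
      c * X ^ ((1 : ℝ) / 2 + 1 / (n : ℝ)) ≤
        ((FieldsWithGroup K (m * n) (Wreath n H) X).ncard : ℝ) := by
  intro K _ _ m H ⟨M, hMf, hMH⟩ n hn3 hodd
  obtain ⟨g, rfl⟩ := hodd
  have hMN : NumberField M := NumberField.of_module_finite K M
  have hm : Module.finrank K M = m := by
    obtain ⟨e, -⟩ := hMH
    have h1 : Fintype.card (M →ₐ[K] AlgebraicClosure K) = Module.finrank K M := AlgHom.card K M _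
    have h2 := Fintype.card_congr e
    rw [Fintype.card_fin] at h2
    exact h1.symm.trans h2
  obtain ⟨c, hc, X₀, h⟩ := Pool.Agent.N783.CF.wreathFields g K M (by omega)
  refine ⟨c, hc, X₀, fun X hX => ?_⟩
  obtain ⟨hfin, T, hT, hTW, hle⟩ := h X hX
  rw [hm] at hfin hT
  have hfin' : (FieldsWithGroup K (m * (2 * g + 1)) (Wreath (2 * g + 1) H) X).Finite :=
    hfin.subset fun L hL => ⟨hL.1, hL.2.1⟩
  have hsub : T ⊆ FieldsWithGroup K (m * (2 * g + 1)) (Wreath (2 * g + 1) H) X := by
    intro L hL
    obtain ⟨h1, h2, h3⟩ := hT hL
    refine ⟨h1, ⟨h2, h3⟩, ?_⟩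
    exact Pool.Agent.N783.CF.hasGroup_wreath M L H hMH (by rw [h1, hm]) (hTW L hL)
  refine ⟨hfin', hle.trans ?_⟩
  exact_mod_cast Set.ncard_le_ncard hsub hfin'

end Pool.Agent.Results.MP_a3214d_nt.WreathSymmetricLowerBound
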